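import Mathlib

namespace Pool.Agent.H.MP_797cb5_co

/-- points of the plane -/
abbrev Pt := ℝ × ℝ

/-- two segments (given by their unordered endpoint pairs) meet at a point that is not an
endpoint of either -/
def Cross (e f : Sym2 Pt) : Prop :=
  ∃ p q r s : Pt, e = s(p, q) ∧ f = s(r, s) ∧
    ∃ x, x ∈ segment ℝ p q ∧ x ∈ segment ℝ r s ∧ x ≠ p ∧ x ≠ q ∧ x ≠ r ∧ x ≠ s

/-- a segment with both (distinct) endpoints in `S` and no other point of `S` on it -/
def IsSeg (S : Finset Pt) (e : Sym2 Pt) : Prop :=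
  ∃ p ∈ S, ∃ q ∈ S, p ≠ q ∧ e = s(p, q) ∧ ∀ x ∈ S, x ∈ segment ℝ p q → x = p ∨ x = q

/-- a set of pairwise non-crossing segments of `S` -/
def NonCross (S : Finset Pt) (T : Set (Sym2 Pt)) : Prop :=
  (∀ e ∈ T, IsSeg S e) ∧ T.Pairwise fun e f => ¬ Cross e f

/-- triangulation: a maximal set of pairwise non-crossing segments -/
def IsTri (S : Finset Pt) (T : Set (Sym2 Pt)) : Prop := Maximal (NonCross S) T

/-- `a b c` is a triangle of `T`: its three sides are edges of `T` and it contains no other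
point of `S` -/
def Face (S : Finset Pt) (T : Set (Sym2 Pt)) (a b c : Pt) : Prop :=
  s(a, b) ∈ T ∧ s(b, c) ∈ T ∧ s(a, c) ∈ T ∧
    ∀ x ∈ S, x ∈ convexHull ℝ ({a, b, c} : Set Pt) → x = a ∨ x = b ∨ x = c

/-- `T'` arises from `T` by one parallel flip -/
def PFlip (S : Finset Pt) (T T' : Set (Sym2 Pt)) : Prop :=
  IsTri S T ∧ IsTri S T' ∧ ∃ E E' : Set (Sym2 Pt), E ⊆ T ∧ T' = (T \ E) ∪ E' ∧
    ∀ a b c, Face S T a b c → ¬ (s(a, b) ∈ E ∧ s(b, c) ∈ E)

/-- `P 0, …, P l` is a parallel-flip path of length `l` from `T` to `T'` -/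
def IsPath (S : Finset Pt) (T T' : Set (Sym2 Pt)) (l : ℕ) (P : ℕ → Set (Sym2 Pt)) : Prop :=
  P 0 = T ∧ P l = T' ∧ ∀ i < l, PFlip S (P i) (P (i + 1))

/-- a path of minimum length -/
def Shortest (S : Finset Pt) (T T' : Set (Sym2 Pt)) (l : ℕ) (P : ℕ → Set (Sym2 Pt)) : Prop :=
  IsPath S T T' l P ∧ ∀ l' P', IsPath S T T' l' P' → l ≤ l'

def O (p q x : Pt) : ℝ := (q.1 - p.1) * (x.2 - p.2) - (q.2 - p.2) * (x.1 - p.1)

lemma cross_mk {p q r s : Pt} : Cross s(p, q) s(r, s) ↔
    ∃ x, x ∈ segment ℝ p q ∧ x ∈ segment ℝ r s ∧ x ≠ p ∧ x ≠ q ∧ x ≠ r ∧ x ≠ s := by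
  refine ⟨?_, fun h => ⟨p, q, r, s, rfl, rfl, h⟩⟩
  rintro ⟨p', q', r', s', h1, h2, x, a1, a2, a3, a4, a5, a6⟩
  rcases Sym2.eq_iff.1 h1 with ⟨rfl, rfl⟩ | ⟨rfl, rfl⟩ <;>
    rcases Sym2.eq_iff.1 h2 with ⟨rfl, rfl⟩ | ⟨rfl, rfl⟩
  · exact ⟨x, a1, a2, a3, a4, a5, a6⟩
  · exact ⟨x, a1, by rwa [segment_symm], a3, a4, a6, a5⟩
  · exact ⟨x, by rwa [segment_symm], a2, a4, a3, a5, a6⟩
  · exact ⟨x, by rwa [segment_symm], by rwa [segment_symm], a4, a3, a6, a5⟩

lemma O_seg {p q x : Pt} (h : x ∈ segment ℝ p q) : O p q x = 0 := by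
  obtain ⟨a, b, -, -, hab, rfl⟩ := h
  obtain rfl : a = 1 - b := by linarith
  simp only [O, Prod.fst_add, Prod.snd_add, Prod.smul_fst, Prod.smul_snd, smul_eq_mul]
  ring

lemma of_cross {p q r s x : Pt} (h1 : x ∈ segment ℝ p q) (h2 : x ∈ segment ℝ r s) (hr : x ≠ r)
    (hs : x ≠ s) : O p q r * O p q s < 0 ∨ (O p q r = 0 ∧ O p q s = 0) := by
  have h0 := O_seg h1
  obtain ⟨a, b, ha, hb, hab, rfl⟩ := h2
  obtain rfl : a = 1 - b := by linarith
  have ha' : 0 < 1 - b := ha.lt_of_ne fun h => hs (by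
    rw [← h, show b = 1 by linarith]; simp)
  have hb' : 0 < b := hb.lt_of_ne fun h => hr (by rw [← h]; simp)
  have e : (1 - b) * O p q r + b * O p q s = 0 := by
    rw [← h0]
    simp only [O, Prod.fst_add, Prod.snd_add, Prod.smul_fst, Prod.smul_snd, smul_eq_mul]
    ring
  rcases lt_trichotomy (O p q r) 0 with h | h | h
  · left
    have : 0 < O p q s := by nlinarith
    exact mul_neg_of_neg_of_pos h this
  · right
    rw [h] at e
    exact ⟨h, by nlinarith⟩
  · left
    have : O p q s < 0 := by nlinarith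
    exact mul_neg_of_pos_of_neg h this

lemma frac {u v : ℝ} (h : u * v < 0) : u - v ≠ 0 ∧ 0 ≤ u / (u - v) ∧ u / (u - v) ≤ 1 := by
  rcases mul_neg_iff.1 h with ⟨h1, h2⟩ | ⟨h1, h2⟩
  · have : 0 < u - v := by linarith
    exact ⟨this.ne', by positivity, by rw [div_le_one this]; linarith⟩
  · have : u - v < 0 := by linarith
    exact ⟨this.ne, div_nonneg_of_nonpos h1.le this.le, by rw [div_le_one_of_neg this]; linarith⟩

lemma cross_of {p q r s : Pt} (h1 : O p q r * O p q s < 0) (h2 : O r s p * O r s q < 0) :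
    Cross s(p, q) s(r, s) := by
  obtain ⟨a0, a1, a2⟩ := frac h1
  obtain ⟨b0, b1, b2⟩ := frac h2
  set b := O p q r / (O p q r - O p q s) with hb
  set a := O r s p / (O r s p - O r s q) with ha
  have e0 : O r s p - O r s q = -(O p q r - O p q s) := by simp only [O]; ring
  have e : (1 - a) • p + a • q = (1 - b) • r + b • s := by
    rw [ha, hb, e0]
    generalize hD : O p q r - O p q s = D at a0
    ext
    · simp only [Prod.fst_add, Prod.smul_fst, smul_eq_mul]
      field_simp
      rw [← hD]; simp only [O]; ring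
    · simp only [Prod.snd_add, Prod.smul_snd, smul_eq_mul]
      field_simp
      rw [← hD]; simp only [O]; ring
  have m1 : (1 - a) • p + a • q ∈ segment ℝ p q := ⟨1 - a, a, by linarith, b1, by ring, rfl⟩
  have m2 : (1 - a) • p + a • q ∈ segment ℝ r s := ⟨1 - b, b, by linarith, a1, by ring, e.symm⟩
  have z1 := O_seg m1
  have z2 := O_seg m2
  refine cross_mk.2 ⟨_, m1, m2, fun h => ?_, fun h => ?_, fun h => ?_, fun h => ?_⟩
  · rw [h] at z2; simp [z2] at h2
  · rw [h] at z2; simp [z2] at h2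
  · rw [h] at z1; simp [z1] at h1
  · rw [h] at z1; simp [z1] at h1

lemma hull_side {p q a b c x : Pt} (ha : 0 ≤ O p q a) (hb : 0 ≤ O p q b) (hc : 0 ≤ O p q c)
    (hx : x ∈ convexHull ℝ ({a, b, c} : Set Pt)) : 0 ≤ O p q x := by
  have : convexHull ℝ ({a, b, c} : Set Pt) ⊆ {y | 0 ≤ O p q y} := by
    refine convexHull_min ?_ ?_
    · rintro y (rfl | rfl | rfl) <;> assumption
    · intro u hu v hv s t hs ht hst
      obtain rfl : s = 1 - t := by linarith
      have e : O p q ((1 - t) • u + t • v) = (1 - t) * O p q u + t * O p q v := by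
        simp only [O, Prod.fst_add, Prod.snd_add, Prod.smul_fst, Prod.smul_snd, smul_eq_mul]
        ring
      show 0 ≤ O p q _
      rw [e]
      exact add_nonneg (mul_nonneg hs hu) (mul_nonneg ht hv)
  exact this hx

def X : Fin 16 → ℤ := ![-14, -24, -35, -46, -58, -43, -22, 0, 22, 43, 58, 46, 35, 24, 14, 0]
def Y : Fin 16 → ℤ := ![58, 39, 20, 2, -17, -42, -41, -40, -41, -42, -17, 2, 20, 39, 58, 68]
def pt (i : Fin 16) : Pt := (X i, Y i)
noncomputable def SS : Finset Pt := Finset.univ.image pt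
def ori (a b c : Fin 16) : ℤ := (X b - X a) * (Y c - Y a) - (Y b - Y a) * (X c - X a)

def tb : ℕ := 60792825301361768294481494054362845770781927351616638419747647476345878851589086022952018792157903351616070232824991148658380994983303850509654101287462668460011157705334555356674480869361848636665667213419821115701479004801722753949564167796809236164693596128885354378419585206784586711927580365285407068301829137360089733771551554579386673586428598943308340138950041609973928823761571306458253681664664000895354281548589626082019634253611552743426476581360221177717049308810047357503442221430689201272783105493396756105833386406265386325523243928421956088903636977349583102948527068785037776815734132982663026219308582976673051806550446255189892514775169106593336644082322796520191331462843433887604024012167365299255187472457892661553900802005919055132746824889447909347463090855382792936372549939323263509982554850573062396646472611778895424567686676559937946476097201155101412762439550656119140192860057138999007794353886108656445914933598880286891923242847448552476201513629536344359776723731730572211447364884424611116589731731246886328937032934374829898096352416692253762882570016687631725303337702965904055637022767187360841066924161009280332199509274148582613624168773569772804004590631320008667708826758057820160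

def pos (a b c : Fin 16) : Bool := tb.testBit (256 * a + 16 * b + c)

def cr (a b c d : Fin 16) : Bool :=
  (pos a b c && pos b a d || pos a b d && pos b a c) &&
    (pos c d a && pos d c b || pos c d b && pos d c a)

def bit (M : ℕ) (a b : Fin 16) : Bool := M.testBit (16 * a + b)

def hM : ℕ := 220891268091576688585316848893018434074565954349285392151727899660337154
def hc : ℕ := 28944488628679671112017163464169022451096389118258442849506853927300624285696
def ms : List ℕ := [28950935691102672158666315400115575389859654412329049678501019651485768990750,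
  28954476260018629050738629635205557180160254300280149467255718367878105628702,
  28961547045231022649037576953252429813337581835143068378929821002554587578398,
  28975667479162935091202429756738892272964819388827975094595329013208261689374,
  29201816785870681327055394523502709484401415070164473547249215656133633867806,
  43661689726518463916607423802917507960945731032586339651209861769405875453982,
  50891627915539160528571879438700491060094004954724669156626426613192299216926,
  54506597010075734066519795380209744089918814519915049531153686875077490344094,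
  54280440585784100872308709339504309297505251460219319819660316342934835660958,
  50661937797117969768448406962810727085461851084210689294396136370325963513054,
  43424932219785913242544885644059107004958078365131430941431698930028752780414,
  28950921078601362148173832462074678461398039001184857072215864841262613265470]

lemma pos_spec : ∀ a b c, (pos a b c = true ↔ 0 < ori a b c) ∧
    (ori a b c = 0 → a = b ∨ b = c ∨ a = c) := by decide +kernel

lemma xy_inj : ∀ a b, X a = X b → Y a = Y b → a = b := by decide +kernel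

lemma pt_inj : pt.Injective := fun a b h => xy_inj a b
  (by have := congrArg Prod.fst h; simp only [pt] at this; exact_mod_cast this)
  (by have := congrArg Prod.snd h; simp only [pt] at this; exact_mod_cast this)

lemma O_pt (a b c : Fin 16) : O (pt a) (pt b) (pt c) = ori a b c := by simp [O, pt, ori]

lemma ori_swap (a b c : Fin 16) : ori b a c = - ori a b c := by simp only [ori]; ring

lemma cr_iff {a b c d : Fin 16} :
    cr a b c d = true ↔ ori a b c * ori a b d < 0 ∧ ori c d a * ori c d b < 0 := by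
  simp only [cr, Bool.and_eq_true, Bool.or_eq_true, (pos_spec _ _ _).1, ori_swap a b, ori_swap c d,
    mul_neg_iff, neg_pos]
  tauto

lemma mem_SS {x : Pt} : x ∈ SS ↔ ∃ i, pt i = x := by simp [SS]

lemma seg_pt {a b : Fin 16} (h : a ≠ b) : IsSeg SS s(pt a, pt b) := by
  refine ⟨_, mem_SS.2 ⟨a, rfl⟩, _, mem_SS.2 ⟨b, rfl⟩, pt_inj.ne h, rfl, fun x hx hs => ?_⟩
  obtain ⟨c, rfl⟩ := mem_SS.1 hx
  have := O_seg hs
  rw [O_pt] at this
  rcases (pos_spec a b c).2 (by exact_mod_cast this) with h1 | rfl | rfl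
  · exact absurd h1 h
  · exact Or.inr rfl
  · exact Or.inl rfl

lemma of_seg {e : Sym2 Pt} (h : IsSeg SS e) : ∃ a b, a ≠ b ∧ e = s(pt a, pt b) := by
  obtain ⟨p, hp, q, hq, hpq, rfl, -⟩ := h
  obtain ⟨a, rfl⟩ := mem_SS.1 hp
  obtain ⟨b, rfl⟩ := mem_SS.1 hq
  exact ⟨a, b, fun h => hpq (by rw [h]), rfl⟩

lemma cr_cross {a b c d : Fin 16} (h : cr a b c d = true) :
    Cross s(pt a, pt b) s(pt c, pt d) ∧ s(pt a, pt b) ≠ s(pt c, pt d) := by
  obtain ⟨h1, h2⟩ := cr_iff.1 h
  refine ⟨cross_of (by rw [O_pt, O_pt]; exact_mod_cast h1) (by rw [O_pt, O_pt]; exact_mod_cast h2),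
    fun e => ?_⟩
  rcases Sym2.eq_iff.1 e with ⟨e1, -⟩ | ⟨e1, -⟩ <;> rw [← pt_inj e1] at h1 <;> simp [ori] at h1

lemma cross_cr {a b c d : Fin 16} (hab : a ≠ b) (hcd : c ≠ d)
    (h : Cross s(pt a, pt b) s(pt c, pt d)) (hne : s(pt a, pt b) ≠ s(pt c, pt d)) :
    cr a b c d = true := by
  obtain ⟨x, a1, a2, a3, a4, a5, a6⟩ := cross_mk.1 h
  have k : ∀ {a b c d : Fin 16}, a ≠ b → c ≠ d → s(pt a, pt b) ≠ s(pt c, pt d) →
      ¬ (O (pt a) (pt b) (pt c) = 0 ∧ O (pt a) (pt b) (pt d) = 0) := by
    rintro a b c d hab hcd hne ⟨h1, h2⟩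
    rw [O_pt] at h1 h2
    rcases (pos_spec a b c).2 (by exact_mod_cast h1) with h1 | rfl | rfl
    · exact hab h1
    · rcases (pos_spec a b d).2 (by exact_mod_cast h2) with h1 | rfl | rfl
      · exact hab h1
      · exact hcd rfl
      · exact hne Sym2.eq_swap
    · rcases (pos_spec a b d).2 (by exact_mod_cast h2) with h1 | rfl | rfl
      · exact hab h1
      · exact hne rfl
      · exact hcd rfl
  have h1 := (of_cross a1 a2 a5 a6).resolve_right (k hab hcd hne)
  have h2 := (of_cross a2 a1 a3 a4).resolve_right (k hcd hab hne.symm)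
  rw [O_pt, O_pt] at h1 h2
  exact cr_iff.2 ⟨by exact_mod_cast h1, by exact_mod_cast h2⟩

lemma cross_symm {e f : Sym2 Pt} (h : Cross e f) : Cross f e := by
  obtain ⟨p, q, r, s, h1, h2, x, a1, a2, a3, a4, a5, a6⟩ := h
  exact ⟨r, s, p, q, h2, h1, x, a2, a1, a5, a6, a3, a4⟩

structure Tri (t : Fin 16 → Fin 16 → Prop) : Prop where
  sy : ∀ a b, t a b → t b a
  nc : ∀ a b c d, t a b → t c d → cr a b c d = true → False
  mx : ∀ a b, a ≠ b → ¬ t a b → ∃ c d, t c d ∧ cr a b c d = true

def tt (T : Set (Sym2 Pt)) (a b : Fin 16) : Prop := s(pt a, pt b) ∈ T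

lemma tri_of {T : Set (Sym2 Pt)} (h : IsTri SS T) : Tri (tt T) := by
  refine ⟨fun a b h1 => by unfold tt at *; rwa [Sym2.eq_swap], fun a b c d h1 h2 h3 =>
    h.1.2 h1 h2 (cr_cross h3).2 (cr_cross h3).1, fun a b hab hn => ?_⟩
  by_contra hcon
  push Not at hcon
  have key : ∀ f ∈ T, s(pt a, pt b) ≠ f → ¬ Cross s(pt a, pt b) f := fun f hf hne hx => by
    obtain ⟨c, d, hcd, rfl⟩ := of_seg (h.1.1 f hf)
    exact hcon c d hf (cross_cr hab hcd hx hne)
  have : NonCross SS (insert s(pt a, pt b) T) := by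
    refine ⟨?_, h.1.2.insert fun f hf hne => ⟨key f hf hne, fun hx => key f hf hne (cross_symm hx)⟩⟩
    rintro e (rfl | he)
    · exact seg_pt hab
    · exact h.1.1 e he
  exact hn (h.2 this (Set.subset_insert _ _) (Set.mem_insert _ _))

def TM (M : ℕ) : Set (Sym2 Pt) := {e | ∃ a b, bit M a b = true ∧ e = s(pt a, pt b)}

def Good (M : ℕ) : Prop :=
  (∀ a b, bit M a b = true → a ≠ b ∧ bit M b a = true) ∧
  (∀ a b, bit M a b = true → ∀ c d, bit M c d = true → cr a b c d = false) ∧
  ∀ a b, a ≠ b → bit M a b = false → ∃ c d, bit M c d = true ∧ cr a b c d = true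

instance (M : ℕ) : Decidable (Good M) := by unfold Good; infer_instance

lemma tt_TM {M : ℕ} (h : Good M) {a b : Fin 16} : s(pt a, pt b) ∈ TM M ↔ bit M a b = true := by
  refine ⟨?_, fun h1 => ⟨a, b, h1, rfl⟩⟩
  rintro ⟨c, d, h1, h2⟩
  rcases Sym2.eq_iff.1 h2 with ⟨e1, e2⟩ | ⟨e1, e2⟩ <;> rw [pt_inj e1, pt_inj e2]
  · exact h1
  · exact (h.1 _ _ h1).2

lemma tri_TM {M : ℕ} (h : Good M) : IsTri SS (TM M) := by
  refine ⟨⟨?_, ?_⟩, fun T hT hsub e he => ?_⟩
  · rintro _ ⟨a, b, h1, rfl⟩
    exact seg_pt (h.1 a b h1).1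
  · rintro _ ⟨a, b, h1, rfl⟩ _ ⟨c, d, h2, rfl⟩ hne hx
    have := cross_cr (h.1 a b h1).1 (h.1 c d h2).1 hx hne
    rw [h.2.1 a b h1 c d h2] at this
    exact absurd this (by simp)
  · obtain ⟨a, b, hab, rfl⟩ := of_seg (hT.1 e he)
    by_contra hn
    rw [tt_TM h, Bool.not_eq_true] at hn
    obtain ⟨c, d, h1, h2⟩ := h.2.2 a b hab hn
    exact hT.2 he (hsub ((tt_TM h).2 h1)) (cr_cross h2).2 (cr_cross h2).1

lemma good_ms : ∀ i < 12, Good (ms.getD i 0) := by decide +kernel

lemma step_ms : ∀ i < 11, ∀ a b, bit (ms.getD i 0) a b = true → bit (ms.getD (i + 1) 0) a b = false →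
    ∀ c, bit (ms.getD i 0) b c = true → bit (ms.getD (i + 1) 0) b c = false →
      bit (ms.getD i 0) a c = false := by decide +kernel

lemma path11 : IsPath SS (TM (ms.getD 0 0)) (TM (ms.getD 11 0)) 11 fun i => TM (ms.getD i 0) := by
  refine ⟨rfl, rfl, fun i hi => ?_⟩
  have g1 := good_ms i (by omega)
  have g2 := good_ms (i + 1) (by omega)
  refine ⟨tri_TM g1, tri_TM g2, TM (ms.getD i 0) \ TM (ms.getD (i + 1) 0), TM (ms.getD (i + 1) 0),
    Set.diff_subset, ?_, ?_⟩
  · ext e; simp only [Set.mem_union, Set.mem_diff]; tauto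
  · rintro a b c ⟨h1, h2, h3, -⟩ ⟨⟨-, h4⟩, ⟨-, h5⟩⟩
    have hS : ∀ {u v : Pt}, s(u, v) ∈ TM (ms.getD i 0) → (∃ i, pt i = u) ∧ ∃ i, pt i = v := by
      rintro u v ⟨c, d, -, h⟩
      rcases Sym2.eq_iff.1 h with ⟨rfl, rfl⟩ | ⟨rfl, rfl⟩ <;> exact ⟨⟨_, rfl⟩, ⟨_, rfl⟩⟩
    obtain ⟨⟨a, rfl⟩, ⟨b, rfl⟩⟩ := hS h1
    obtain ⟨-, ⟨c, rfl⟩⟩ := hS h2
    rw [tt_TM g1] at h1 h2 h3
    rw [tt_TM g2, Bool.not_eq_true] at h4 h5
    rw [step_ms i hi a b h1 h4 c h2 h5] at h3
    exact absurd h3 (by simp)

end Pool.Agent.H.MP_797cb5_co
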