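import Pool.Agent.H.MP_797cb5_co.A

namespace Pool.Agent.H.MP_797cb5_co

def ch (r : Fin 3) (i : Fin 5) : Fin 16 := ⟨5 * r + i, by omega⟩

def emp (a b c : Fin 16) : Prop :=
  ∀ x, pt x ∈ convexHull ℝ ({pt a, pt b, pt c} : Set Pt) → x = a ∨ x = b ∨ x = c

def eb (a b c : Fin 16) : Prop :=
  pos a b c = true ∧
    ∀ x, x = a ∨ x = b ∨ x = c ∨ pos b a x = true ∨ pos c b x = true ∨ pos a c x = true

instance (a b c : Fin 16) : Decidable (eb a b c) := by unfold eb; infer_instance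

lemma emp_of {a b c : Fin 16} (h : eb a b c) : emp a b c := by
  intro x hx
  have h0 := (pos_spec a b c).1.1 h.1
  have k : ∀ p q : Fin 16, 0 ≤ ori p q a → 0 ≤ ori p q b → 0 ≤ ori p q c → 0 ≤ ori p q x := by
    intro p q h1 h2 h3
    have := hull_side (p := pt p) (q := pt q) (by rw [O_pt]; exact_mod_cast h1)
      (by rw [O_pt]; exact_mod_cast h2) (by rw [O_pt]; exact_mod_cast h3) hx
    rw [O_pt] at this
    exact_mod_cast this
  have z1 : ∀ p q : Fin 16, ori p q p = 0 := fun p q => by simp [ori]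
  have z2 : ∀ p q : Fin 16, ori p q q = 0 := fun p q => by simp only [ori]; ring
  have c1 : ori b c a = ori a b c := by simp only [ori]; ring
  have c2 : ori c a b = ori a b c := by simp only [ori]; ring
  rcases h.2 x with h1 | h1 | h1 | h1 | h1 | h1
  · exact Or.inl h1
  · exact Or.inr (Or.inl h1)
  · exact Or.inr (Or.inr h1)
  · have := k a b (z1 _ _).ge (z2 _ _).ge h0.le
    rw [(pos_spec _ _ _).1, ori_swap] at h1; omega
  · have := k b c (by omega) (z1 _ _).ge (z2 _ _).ge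
    rw [(pos_spec _ _ _).1, ori_swap] at h1; omega
  · have := k c a (z2 _ _).ge (by omega) (z1 _ _).ge
    rw [(pos_spec _ _ _).1, ori_swap] at h1; omega

lemma emp.swap {a b c : Fin 16} (h : emp a b c) : emp b a c := fun x hx => by
  rw [Set.insert_comm] at hx
  have := h x hx
  tauto

lemma emp.rot {a b c : Fin 16} (h : emp a b c) : emp b c a := fun x hx => by
  have e : ({pt b, pt c, pt a} : Set Pt) = {pt a, pt b, pt c} := by
    ext y; simp only [Set.mem_insert_iff, Set.mem_singleton_iff]; tauto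
  rw [e] at hx
  have := h x hx
  tauto

def Fl (t t' : Fin 16 → Fin 16 → Prop) : Prop :=
  ∀ a b c, emp a b c → t a b → t b c → t a c → t' a b ∨ t' b c

lemma fl_of {T T' : Set (Sym2 Pt)} (h : PFlip SS T T') : Fl (tt T) (tt T') := by
  obtain ⟨-, -, E, E', -, rfl, h⟩ := h
  intro a b c he h1 h2 h3
  have := h (pt a) (pt b) (pt c) ⟨h1, h2, h3, fun x hx hx' => by
    obtain ⟨y, rfl⟩ := mem_SS.1 hx
    rcases he y hx' with rfl | rfl | rfl <;> simp⟩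
  rw [not_and_or] at this
  exact this.imp (fun h => Or.inl ⟨h1, h⟩) fun h => Or.inl ⟨h2, h⟩

def HH (t : Fin 16 → Fin 16 → Prop) : Prop := ∀ a b, bit hM a b = true → t a b

def Cen (t : Fin 16 → Fin 16 → Prop) (r : Fin 3) (p q w : Fin 5) : Prop :=
  t (ch r p) (ch (r + 1) q) ∧ t (ch (r + 1) q) (ch (r + 2) w) ∧ t (ch (r + 2) w) (ch r p)

lemma hc_spec : ∀ x y, bit hc x y = true → ∃ a b, bit hM a b = true ∧ cr a b x y = true := by
  decide +kernel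

lemma D0 : ∀ r : Fin 3, bit hM (ch r 4) (ch (r + 1) 0) = true ∧
    (∀ p p' : Fin 5, p'.val = p + 1 → bit hM (ch r p) (ch r p') = true) ∧
    (∀ p q, ch r p ≠ ch (r + 1) q ∧ ch (r + 2) p ≠ ch r q ∧ ch (r + 2) p ≠ ch (r + 1) q) ∧
    (∀ p q w, eb (ch r p) (ch (r + 1) q) (ch (r + 2) w)) ∧
    (∀ p p' q : Fin 5, p'.val = p + 1 → eb (ch r p) (ch r p') (ch (r + 1) q)) ∧
    (∀ p q q' : Fin 5, q.val = q' + 1 → eb (ch r p) (ch (r + 1) q') (ch (r + 1) q)) ∧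
    ∀ p p' q q', p < p' → q' < q →
      cr (ch r p') (ch (r + 1) q) (ch r p) (ch (r + 1) q') = true := by
  decide +kernel

lemma D1 : ∀ (r : Fin 3) (p q q' : Fin 5), q.val = q' + 1 → ∀ x y,
    cr (ch r p) (ch (r + 1) q') x y = true → bit hc x y = false →
    cr (ch r p) (ch (r + 1) q) x y = false →
    ∃ p', p < p' ∧ ((x = ch r p' ∧ y = ch (r + 1) q) ∨ (y = ch r p' ∧ x = ch (r + 1) q)) := by
  decide +kernel

lemma D2 : ∀ (r : Fin 3) (q p p' : Fin 5), p'.val = p + 1 → ∀ x y,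
    cr (ch r p') (ch (r + 1) q) x y = true → bit hc x y = false →
    cr (ch r p) (ch (r + 1) q) x y = false →
    ∃ q', q' < q ∧ ((x = ch r p ∧ y = ch (r + 1) q') ∨ (y = ch r p ∧ x = ch (r + 1) q')) := by
  decide +kernel

lemma D3 : ∀ (r : Fin 3) (w p p' : Fin 5), p'.val = p + 1 → ∀ x y,
    cr (ch (r + 2) w) (ch r p') x y = true → bit hc x y = false →
    cr (ch (r + 2) w) (ch r p) x y = false → ∀ q,
    cr (ch (r + 1) q) (ch (r + 2) w) x y = false → cr (ch r p') (ch (r + 1) q) x y = false →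
    (x = ch r p ∧ y = ch (r + 1) q) ∨ (y = ch r p ∧ x = ch (r + 1) q) := by
  decide +kernel

lemma D4 : ∀ (r : Fin 3) (w q q' : Fin 5), q.val = q' + 1 → ∀ x y,
    cr (ch (r + 2) w) (ch (r + 1) q') x y = true → bit hc x y = false →
    cr (ch (r + 1) q) (ch (r + 2) w) x y = false → ∀ p,
    cr (ch (r + 2) w) (ch r p) x y = false → cr (ch r p) (ch (r + 1) q') x y = false →
    (x = ch r p ∧ y = ch (r + 1) q) ∨ (y = ch r p ∧ x = ch (r + 1) q) := by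
  decide +kernel

lemma D5 : (∀ a b, bit hM a b = true →
    bit (ms.getD 0 0) a b = true ∧ bit (ms.getD 11 0) a b = true) ∧
    (bit (ms.getD 0 0) (ch 0 4) (ch (0 + 1) 4) = true ∧
      bit (ms.getD 0 0) (ch (0 + 1) 4) (ch (0 + 2) 4) = true ∧
      bit (ms.getD 0 0) (ch (0 + 2) 4) (ch 0 4) = true) ∧
    ∀ p q w, bit (ms.getD 11 0) (ch 0 p) (ch (0 + 1) q) = true →
      bit (ms.getD 11 0) (ch (0 + 1) q) (ch (0 + 2) w) = true →
      bit (ms.getD 11 0) (ch (0 + 2) w) (ch 0 p) = true → p.val + q + w = 0 := by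
  decide +kernel

variable {t t' : Fin 16 → Fin 16 → Prop}

lemma Tri.ncb (h : Tri t) {a b c d : Fin 16} (h1 : t a b) (h2 : t c d) : cr a b c d = false := by
  by_contra h3
  exact h.nc a b c d h1 h2 (by simpa using h3)

lemma Tri.hcb (h : Tri t) (hH : HH t) {x y : Fin 16} (h1 : t x y) : bit hc x y = false := by
  by_contra h3
  obtain ⟨a, b, h4, h5⟩ := hc_spec x y (by simpa using h3)
  exact h.nc a b x y (hH a b h4) h1 h5

lemma side (h : Tri t) (hH : HH t) {r : Fin 3} {p q : Fin 5} (h1 : t (ch r p) (ch (r + 1) q))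
    (hne : ¬ (p = 4 ∧ q = 0)) :
    (∃ p' : Fin 5, p'.val = p + 1 ∧ t (ch r p') (ch (r + 1) q)) ∨
      ∃ q' : Fin 5, q.val = q' + 1 ∧ t (ch r p) (ch (r + 1) q') := by
  by_contra hcon
  push Not at hcon
  obtain ⟨-, -, e3, -, -, -, e7⟩ := D0 r
  have k1 : 0 < q.val → ∃ p', p < p' ∧ t (ch r p') (ch (r + 1) q) := fun hq => by
    have hq' : q.val = (⟨q - 1, by omega⟩ : Fin 5).val + 1 := by simp only; omega
    obtain ⟨x, y, h2, h3⟩ := h.mx _ _ (e3 _ _).1 (hcon.2 _ hq')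
    obtain ⟨p', h4, ⟨rfl, rfl⟩ | ⟨rfl, rfl⟩⟩ :=
      D1 r p q _ hq' x y h3 (h.hcb hH h2) (h.ncb h1 h2)
    · exact ⟨p', h4, h2⟩
    · exact ⟨p', h4, h.sy _ _ h2⟩
  have k2 : p.val < 4 → ∃ q', q' < q ∧ t (ch r p) (ch (r + 1) q') := fun hp => by
    have hp' : (⟨p + 1, by omega⟩ : Fin 5).val = p + 1 := rfl
    obtain ⟨x, y, h2, h3⟩ := h.mx _ _ (e3 _ _).1 (hcon.1 _ hp')
    obtain ⟨q', h4, ⟨rfl, rfl⟩ | ⟨rfl, rfl⟩⟩ :=
      D2 r q p _ hp' x y h3 (h.hcb hH h2) (h.ncb h1 h2)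
    · exact ⟨q', h4, h2⟩
    · exact ⟨q', h4, h.sy _ _ h2⟩
  have k3 : 0 < q.val ∧ p.val < 4 := by
    by_cases hq : 0 < q.val
    · obtain ⟨p', h4, -⟩ := k1 hq
      exact ⟨hq, by have := p'.2; rw [Fin.lt_def] at h4; omega⟩
    · have hp : p.val < 4 := by
        by_contra hp
        exact hne ⟨Fin.ext (show p.val = 4 by omega), Fin.ext (show q.val = 0 by omega)⟩
      obtain ⟨q', h4, -⟩ := k2 hp
      rw [Fin.lt_def] at h4; omega
  obtain ⟨p', a1, a2⟩ := k1 k3.1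
  obtain ⟨q', b1, b2⟩ := k2 k3.2
  exact h.nc _ _ _ _ a2 b2 (e7 _ _ _ _ a1 b1)

lemma step_aux (h : Tri t) (h' : Tri t') (hH : HH t) (hH' : HH t') (hf : Fl t t') {r : Fin 3}
    {p q w : Fin 5} (hc : Cen t r p q w) (hn : ¬ t' (ch r p) (ch (r + 1) q)) :
    ∃ p' q' : Fin 5, Cen t' r p' q' w ∧ p.val + q ≤ p' + q' + 1 := by
  obtain ⟨e1, e2, e3, e4, e5, e6, -⟩ := D0 r
  obtain ⟨c1, c2, c3⟩ := hc
  have F : ∀ x, emp (ch r p) (ch (r + 1) q) x → t (ch (r + 1) q) x → t (ch r p) x →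
      t' (ch (r + 1) q) x ∧ t' (ch r p) x := fun x he a1 a2 =>
    ⟨(hf _ _ _ he c1 a1 a2).resolve_left hn,
      (hf _ _ _ he.swap (h.sy _ _ c1) a2 a1).resolve_left fun h3 => hn (h'.sy _ _ h3)⟩
  obtain ⟨g1, g2⟩ := F _ (emp_of (e4 p q w)) c2 (h.sy _ _ c3)
  have g3 := h'.sy _ _ g2
  rcases side h hH c1 (by rintro ⟨rfl, rfl⟩; exact hn (hH' _ _ e1)) with
    ⟨p', hp, a1⟩ | ⟨q', hq, a1⟩
  · have g4 := h'.sy _ _ (F _ (emp_of (e5 p p' q hp)).rot.rot.swap (h.sy _ _ a1)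
      (hH _ _ (e2 p p' hp))).1
    refine ⟨p', q, ⟨g4, g1, ?_⟩, by omega⟩
    by_contra hg
    obtain ⟨x, y, h2, h3⟩ := h'.mx _ _ (e3 _ _).2.1 hg
    rcases D3 r w p p' hp x y h3 (h'.hcb hH' h2) (h'.ncb g3 h2) q (h'.ncb g1 h2) (h'.ncb g4 h2) with
      ⟨rfl, rfl⟩ | ⟨rfl, rfl⟩
    · exact hn h2
    · exact hn (h'.sy _ _ h2)
  · have g4 := (F _ (emp_of (e6 p q q' hq)).rot.rot.swap
      (h.sy _ _ (hH _ _ ((D0 (r + 1)).2.1 q' q hq))) a1).2
    refine ⟨p, q', ⟨g4, h'.sy _ _ ?_, g3⟩, by omega⟩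
    by_contra hg
    obtain ⟨x, y, h2, h3⟩ := h'.mx _ _ (e3 _ _).2.2 hg
    rcases D4 r w q q' hq x y h3 (h'.hcb hH' h2) (h'.ncb g1 h2) p (h'.ncb g3 h2) (h'.ncb g4 h2) with
      ⟨rfl, rfl⟩ | ⟨rfl, rfl⟩
    · exact hn h2
    · exact hn (h'.sy _ _ h2)

lemma step (h : Tri t) (h' : Tri t') (hH : HH t) (hH' : HH t') (hf : Fl t t')
    {p q w : Fin 5} (hc : Cen t 0 p q w) :
    ∃ p' q' w' : Fin 5, Cen t' 0 p' q' w' ∧ p.val + q + w ≤ p' + q' + w' + 1 := by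
  by_cases h1 : t' (ch 0 p) (ch 1 q)
  · by_cases h2 : t' (ch 1 q) (ch 2 w)
    · by_cases h3 : t' (ch 2 w) (ch 0 p)
      · exact ⟨p, q, w, ⟨h1, h2, h3⟩, by omega⟩
      · obtain ⟨w', p', a1, a2⟩ :=
          step_aux h h' hH hH' hf (r := 2) ⟨hc.2.2, hc.1, hc.2.1⟩ h3
        exact ⟨p', q, w', ⟨a1.2.1, a1.2.2, a1.1⟩, by omega⟩
    · obtain ⟨q', w', a1, a2⟩ := step_aux h h' hH hH' hf (r := 1) ⟨hc.2.1, hc.2.2, hc.1⟩ h2
      exact ⟨p, q', w', ⟨a1.2.2, a1.1, a1.2.1⟩, by omega⟩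
  · obtain ⟨p', q', a1, a2⟩ := step_aux h h' hH hH' hf hc h1
    exact ⟨p', q', w, a1, by omega⟩

theorem lower {l : ℕ} {P : ℕ → Set (Sym2 Pt)}
    (hP : IsPath SS (TM (ms.getD 0 0)) (TM (ms.getD 11 0)) l P)
    (hh : ∀ i, 0 < i → i < l → TM (ms.getD 0 0) ∩ TM (ms.getD 11 0) ⊆ P i) : 12 ≤ l := by
  have g1 := good_ms 0 (by omega)
  have g2 := good_ms 11 (by omega)
  obtain ⟨p0, pl, hs⟩ := hP
  have hH : ∀ i ≤ l, HH (tt (P i)) := by
    intro i hi a b hab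
    have a1 := (tt_TM g1).2 (D5.1 a b hab).1
    have a2 := (tt_TM g2).2 (D5.1 a b hab).2
    rcases Nat.eq_zero_or_pos i with rfl | h0
    · unfold tt; rwa [p0]
    · rcases hi.lt_or_eq with h1 | rfl
      · exact hh i h0 h1 ⟨a1, a2⟩
      · unfold tt; rwa [pl]
  have key : ∀ i ≤ l, ∃ p q w : Fin 5, Cen (tt (P i)) 0 p q w ∧ 12 ≤ p.val + q + w + i := by
    intro i
    induction i with
    | zero =>
      intro _
      refine ⟨4, 4, 4, ?_, by decide⟩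
      rw [p0]
      exact ⟨(tt_TM g1).2 D5.2.1.1, (tt_TM g1).2 D5.2.1.2.1, (tt_TM g1).2 D5.2.1.2.2⟩
    | succ i ih =>
      intro hi
      obtain ⟨p, q, w, h1, h2⟩ := ih (by omega)
      have hf := hs i (by omega)
      obtain ⟨p', q', w', h3, h4⟩ :=
        step (tri_of hf.1) (tri_of hf.2.1) (hH i (by omega)) (hH _ hi) (fl_of hf) h1
      exact ⟨p', q', w', h3, by omega⟩
  obtain ⟨p, q, w, h1, h2⟩ := key l le_rfl
  rw [pl] at h1
  have := D5.2.2 p q w ((tt_TM g2).1 h1.1) ((tt_TM g2).1 h1.2.1) ((tt_TM g2).1 h1.2.2)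
  omega

end Pool.Agent.H.MP_797cb5_co
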